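import Pool.Agent.H74R2.WT.Stmts

/-!
# Task S (sectors)
-/

set_option autoImplicit false

open MeasureTheory Set

namespace H74R2.WT

theorem S_e3_rel : e3 ^ 2 - e3 + 1 = 0 := by
  have h3 : Real.sqrt 3 ^ 2 = 3 := Real.sq_sqrt (by norm_num)
  apply Complex.ext
  · simp only [e3, pow_two, Complex.add_re, Complex.sub_re, Complex.mul_re, Complex.one_re,
      Complex.zero_re]
    nlinarith
  · simp only [e3, pow_two, Complex.add_im, Complex.sub_im, Complex.mul_im, Complex.one_im,
      Complex.zero_im]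
    ring

theorem t_S : T_S := by
  constructor
  · intro v hv
    have hvv : v = (v.re : ℂ) + (v.im : ℂ) * Complex.I := (Complex.re_add_im v).symm
    have hI : Complex.I ^ 2 = -1 := Complex.I_sq
    have hne : v.re ≠ 0 ∨ v.im ≠ 0 := by
      by_contra h
      push Not at h
      exact hv (Complex.ext h.1 h.2)
    generalize v.re = p at hvv hne
    generalize v.im = q at hvv hne
    subst hvv
    rcases lt_trichotomy p 0 with hp | hp | hp
    · rcases le_or_gt q 0 with hq | hq
      · refine ⟨2, -p, -q, by linarith, by linarith, ?_⟩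
        push_cast
        linear_combination ((p : ℂ) + (q : ℂ) * Complex.I) * hI
      · refine ⟨3, q, -p, hq, by linarith, ?_⟩
        push_cast
        linear_combination ((p : ℂ) * Complex.I + (q : ℂ) * (Complex.I ^ 2 - 1)) * hI
    · rcases lt_trichotomy q 0 with hq | hq | hq
      · refine ⟨1, -q, p, by linarith, by linarith, ?_⟩
        push_cast
        linear_combination (q : ℂ) * hI
      · exact absurd hq (hne.resolve_left (by simp [hp]))
      · refine ⟨3, q, -p, hq, by linarith, ?_⟩
        push_cast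
        linear_combination ((p : ℂ) * Complex.I + (q : ℂ) * (Complex.I ^ 2 - 1)) * hI
    · rcases lt_or_ge q 0 with hq | hq
      · refine ⟨1, -q, p, by linarith, by linarith, ?_⟩
        push_cast
        linear_combination (q : ℂ) * hI
      · exact ⟨0, p, q, hp, hq, by simp⟩
  · intro v hv
    have hR := S_e3_rel
    have h3 : 0 < Real.sqrt 3 := Real.sqrt_pos.mpr (by norm_num)
    obtain ⟨x, y, hvv⟩ : ∃ x y : ℝ, v = (x : ℂ) + (y : ℂ) * e3 := by
      refine ⟨v.re - v.im / Real.sqrt 3, 2 * v.im / Real.sqrt 3, ?_⟩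
      apply Complex.ext
      · simp only [e3, Complex.add_re, Complex.mul_re, Complex.ofReal_re, Complex.ofReal_im]
        field_simp
        ring
      · simp only [e3, Complex.add_im, Complex.mul_im, Complex.ofReal_re, Complex.ofReal_im]
        field_simp
        ring
    have hne : x ≠ 0 ∨ y ≠ 0 := by
      by_contra h
      push Not at h
      apply hv
      rw [hvv, h.1, h.2]
      simp
    subst hvv
    have k1 : 0 < -y → 0 ≤ x + y → ∃ (k : ℕ) (a b : ℝ), 0 < a ∧ 0 ≤ b ∧
        e3 ^ k * ((x : ℂ) + (y : ℂ) * e3) = a + b * e3 := by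
      intro h1 h2
      refine ⟨1, -y, x + y, h1, h2, ?_⟩
      push_cast
      linear_combination (y : ℂ) * hR
    have k2 : 0 < -(x + y) → 0 ≤ x → ∃ (k : ℕ) (a b : ℝ), 0 < a ∧ 0 ≤ b ∧
        e3 ^ k * ((x : ℂ) + (y : ℂ) * e3) = a + b * e3 := by
      intro h1 h2
      refine ⟨2, -(x + y), x, h1, h2, ?_⟩
      push_cast
      linear_combination ((x : ℂ) + y * (e3 + 1)) * hR
    have k3 : 0 < -x → 0 ≤ -y → ∃ (k : ℕ) (a b : ℝ), 0 < a ∧ 0 ≤ b ∧
        e3 ^ k * ((x : ℂ) + (y : ℂ) * e3) = a + b * e3 := by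
      intro h1 h2
      refine ⟨3, -x, -y, h1, h2, ?_⟩
      push_cast
      linear_combination ((x : ℂ) + y * e3) * (e3 + 1) * hR
    have k4 : 0 < y → 0 ≤ -x - y → ∃ (k : ℕ) (a b : ℝ), 0 < a ∧ 0 ≤ b ∧
        e3 ^ k * ((x : ℂ) + (y : ℂ) * e3) = a + b * e3 := by
      intro h1 h2
      refine ⟨4, y, -x - y, h1, h2, ?_⟩
      push_cast
      linear_combination ((e3 + 1) * e3 * ((x : ℂ) + y * e3) - y) * hR
    have k5 : 0 < x + y → 0 ≤ -x → ∃ (k : ℕ) (a b : ℝ), 0 < a ∧ 0 ≤ b ∧
        e3 ^ k * ((x : ℂ) + (y : ℂ) * e3) = a + b * e3 := by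
      intro h1 h2
      refine ⟨5, x + y, -x, h1, h2, ?_⟩
      push_cast
      linear_combination ((e3 + 1) * e3 ^ 2 * ((x : ℂ) + y * e3) - x - y * (e3 + 1)) * hR
    rcases lt_trichotomy x 0 with hx | hx | hx
    · rcases le_or_gt y 0 with hy | hy
      · exact k3 (by linarith) (by linarith)
      · rcases le_or_gt (x + y) 0 with h | h
        · exact k4 hy (by linarith)
        · exact k5 h (by linarith)
    · rcases lt_trichotomy y 0 with hy | hy | hy
      · exact k2 (by linarith) (by linarith)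
      · exact absurd hy (hne.resolve_left (by simp [hx]))
      · exact k5 (by linarith) (by linarith)
    · rcases lt_or_ge y 0 with hy | hy
      · rcases lt_or_ge (x + y) 0 with h | h
        · exact k2 (by linarith) hx.le
        · exact k1 (by linarith) h
      · exact ⟨0, x, y, hx, hy, by simp⟩

end H74R2.WT
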